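import Pool.Agent.W300.FT.Stm

/-!
Project FT, part GEO: non-backtracking walks in a tree are geodesics.
-/

set_option autoImplicit false

namespace Pool.Agent.W661.FT

open Pool.Agent.W300.FT SimpleGraph

theorem geo : S_GEO := by
  intro V G hG n γ hγ i j hij hjn
  have key : ∀ m : ℕ, i + m ≤ n → ∃ p : G.Walk (γ i) (γ (i + m)), p.IsPath ∧ p.length = m ∧
      (i + m + 1 ≤ n → p.penultimate ≠ γ (i + m + 1)) := by
    intro m
    induction m with
    | zero =>
      intro h
      refine ⟨Walk.nil, Walk.IsPath.nil, rfl, ?_⟩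
      intro h1
      rw [Walk.penultimate_nil]
      exact (hγ.1 i (by omega)).ne
    | succ m ih =>
      intro h
      obtain ⟨p, hp, hl, hpen⟩ := ih (by omega)
      have hadj : G.Adj (γ (i + m)) (γ (i + m + 1)) := hγ.1 (i + m) (by omega)
      have hns : γ (i + m + 1) ∉ p.support := by
        intro hs
        exact hpen (by omega) (hG.isAcyclic.eq_penultimate_of_adj_end hp hadj hs).symm
      refine ⟨p.concat hadj, hp.concat hns hadj, ?_, ?_⟩
      · rw [Walk.length_concat, hl]
      · intro h1
        rw [Walk.penultimate_concat]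
        exact hγ.2 (i + m) (by omega)
  obtain ⟨m, rfl⟩ := Nat.exists_eq_add_of_le hij
  obtain ⟨p, hp, hl, -⟩ := key m hjn
  obtain ⟨q, hq, hql⟩ := hG.connected.exists_path_of_dist (γ i) (γ (i + m))
  have h := Subtype.mk.inj ((hG.isAcyclic.subsingleton_path _ _).elim
    (⟨p, hp⟩ : G.Path _ _) ⟨q, hq⟩)
  rw [← hql, ← h, hl]
  omega

end Pool.Agent.W661.FT
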